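import Pool.Agent.P.MP_467c2e_gt.St

/-!
A rank-6 bundle `f^* T S^6` over `S^3 x S^3` whose zero section has the local geometry of a soul,
with flat planes through the meridian direction of the first factor, has Euler number zero.
-/

namespace Pool.Agent.Results.MP_467c2e_gt.MeridianFlats

open Pool.Agent.P.MP_467c2e_gt

theorem result (f : Bs → V 7) (G : St.Fld Am) (h : St.SoulLike f G) (hm : St.MerFlat f G) :
    degInt f = 0 :=
  of_flat (St.soul h) hm

end Pool.Agent.Results.MP_467c2e_gt.MeridianFlats
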